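import Pool.Agent.Lib.helper32.Sier2

set_option autoImplicit false

namespace Pool.Agent.Results.MP_10444e_gt.MaxClosure

open Filter Set Pool.Agent.Lib.helper32.Tau Pool.Agent.Lib.helper32.Hom

/-- The property `U_fin(O, Ω)`. -/
def UfinOm (Z : Type) [TopologicalSpace Z] : Prop := ∀ 𝓤 : ℕ → Set (Set Z),
  (∀ n, (∀ U ∈ 𝓤 n, IsOpen U) ∧ ⋃₀ 𝓤 n = univ ∧ ¬ ∃ 𝓕 ⊆ 𝓤 n, 𝓕.Finite ∧ ⋃₀ 𝓕 = univ) →
    ∃ 𝓕 : ℕ → Set (Set Z), (∀ n, (𝓕 n).Finite ∧ 𝓕 n ⊆ 𝓤 n) ∧ (∀ n, ⋃₀ 𝓕 n ≠ univ) ∧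
      ∀ F : Finset Z, ∃ n, (F : Set Z) ⊆ ⋃₀ 𝓕 n

/-- The property `S_fin(O, O)`. -/
def Menger (Z : Type) [TopologicalSpace Z] : Prop := ∀ 𝓤 : ℕ → Set (Set Z),
  (∀ n, (∀ U ∈ 𝓤 n, IsOpen U) ∧ ⋃₀ 𝓤 n = univ) →
    ∃ 𝓕 : ℕ → Set (Set Z), (∀ n, (𝓕 n).Finite ∧ 𝓕 n ⊆ 𝓤 n) ∧ ∀ z, ∃ n, z ∈ ⋃₀ 𝓕 n

/-- `G(Y)`: functions eventually dominated by the pointwise maximum of a nonempty finite family
of members of `Y`. -/
def GG (Y : Set (ℕ → ℕ)) : Set (ℕ → ℕ) := {g | ∃ F : Finset (ℕ → ℕ), F.Nonempty ∧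
  (F : Set (ℕ → ℕ)) ⊆ Y ∧ ∀ᶠ m in atTop, g m ≤ F.sup fun h => h m}

theorem result (hCH : Cardinal.continuum.{0} = Cardinal.aleph 1) :
    ∃ (X : Set ℝ) (Ψ : X → ℕ → ℕ), UfinOm X ∧ Continuous Ψ ∧
      ¬ UfinOm (GG (range Ψ)) ∧ ¬ Menger (GG (range Ψ)) := by
  classical
  obtain ⟨S, s1, -, s3, s4⟩ := sier hCH
  obtain ⟨X, e, e1, e2, -, e4, e5⟩ := wrap ((fun z : GZ => {i | z i = 0}) '' S)
  choose ζ z1 z2 using e1
  have z3 : ∀ x y i, (i ∈ e x ↔ i ∈ e y) ↔ ζ x i = ζ y i := fun x y i => by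
    rw [← z2, ← z2, mem_setOf_eq, mem_setOf_eq]
    generalize ζ x i = a
    generalize ζ y i = b
    revert a b
    decide
  have z4 : ∀ z ∈ S, ∃ x, ζ x = z := fun z hz => by
    obtain ⟨x, hx⟩ := e2 _ ⟨z, hz, rfl⟩
    refine ⟨x, funext fun i => ?_⟩
    have c1 : ζ x i = 0 ↔ z i = 0 := Set.ext_iff.1 ((z2 x).trans hx) i
    revert c1
    generalize ζ x i = a
    generalize z i = b
    revert a b
    decide
  let d : ℕ × Finset ℕ ≃ ℕ := Denumerable.eqv _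
  let Ψ : X → ℕ → ℕ := fun x m => if ∀ i < (d.symm m).1, (i ∈ (d.symm m).2 ↔ i ∈ e x) then 1 else 0
  let O : ℕ → ℕ → Set (GG (range Ψ)) := fun k m => {g | ∀ s ∈ (Finset.range m).powerset,
    ∀ t ∈ (Finset.range m).powerset, g.1 (d (m, s)) ≠ 0 → g.1 (d (m, t)) ≠ 0 →
      k < ((Finset.range m).filter fun i => (i ∈ s ↔ i ∈ t)).card}
  have o1 : ∀ k, (∀ U ∈ range (O k), IsOpen U) ∧ ⋃₀ range (O k) = univ := fun k => ⟨by
      rintro _ ⟨m, rfl⟩
      have k0 : Continuous fun (g : GG (range Ψ)) (s : (Finset.range m).powerset) =>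
          g.1 (d (m, s.1)) := continuous_pi fun s =>
        (continuous_apply (d (m, s.1))).comp continuous_subtype_val
      convert (isOpen_discrete {p : (Finset.range m).powerset → ℕ | ∀ s t, p s ≠ 0 → p t ≠ 0 →
        k < ((Finset.range m).filter fun i => (i ∈ s.1 ↔ i ∈ t.1)).card}).preimage k0 using 1
      exact Set.ext fun g => ⟨fun h s t => h s.1 s.2 t.1 t.2, fun h s a t b => h ⟨s, a⟩ ⟨t, b⟩⟩,
    eq_univ_of_forall fun ⟨g, F, f1, f2, f3⟩ => by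
      obtain ⟨_, b0, -⟩ := s4 _ infinite_univ
      obtain ⟨x0, -⟩ := z4 _ b0
      have : Nonempty X := ⟨x0⟩
      choose! ξ hξ using fun u (hu : u ∈ F) => f2 hu
      have a1 : ∀ᶠ m in atTop, ∀ s, g (d (m, s)) ≤ F.sup fun h => h (d (m, s)) := by
        rw [← Nat.cofinite_eq_atTop] at f3 ⊢
        exact (Finite.subset (f3.image fun n => (d.symm n).1) fun m hm =>
          let ⟨s, hs⟩ := not_forall.1 hm; ⟨d (m, s), hs, by simp⟩ :)
      have a2 : ∀ x y, ∀ᶠ m in atTop, k < ((Finset.range m).filter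
          fun i => (i ∈ e x ↔ i ∈ e y)).card := fun x y => by
        obtain ⟨T, t1, t2⟩ := (s3 _ (z1 x) _ (z1 y)).exists_subset_card_eq (k + 1)
        refine (eventually_gt_atTop (T.sup id)).mono fun m hm => (Nat.lt_succ_self k).trans_le
          (t2.ge.trans (Finset.card_le_card fun i hi => Finset.mem_filter.2 ⟨Finset.mem_range.2
            ((Finset.le_sup (f := id) hi).trans_lt hm), (z3 x y i).2 (t1 hi)⟩))
      obtain ⟨m, a3, a4⟩ := (a1.and ((eventually_all_finset F).2 fun u _ =>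
        (eventually_all_finset F).2 fun v _ => a2 (ξ u) (ξ v))).exists
      have a5 : ∀ s, g (d (m, s)) ≠ 0 → ∃ u ∈ F, ∀ i < m, (i ∈ s ↔ i ∈ e (ξ u)) := fun s hs => by
        by_contra! c
        refine hs (Nat.le_zero.1 ((a3 s).trans (Finset.sup_le fun u hu => ?_)))
        rw [← hξ u hu]
        obtain ⟨i, c1, c2⟩ := c u hu
        exact (if_neg fun c3 => by
          have := c3 i (by simpa using c1)
          simp only [Equiv.symm_apply_apply] at this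
          tauto).le
      refine ⟨_, ⟨m, rfl⟩, fun s _ t _ b1 b2 => ?_⟩
      obtain ⟨u, c1, c2⟩ := a5 s b1
      obtain ⟨v, c3, c4⟩ := a5 t b2
      refine (a4 u c1 v c3).trans_eq (congrArg _ (Finset.filter_congr fun i hi => ?_))
      rw [c2 i (Finset.mem_range.1 hi), c4 i (Finset.mem_range.1 hi)]⟩
  have o2 : ∀ 𝓕 : ℕ → Set (Set (GG (range Ψ))), (∀ n, (𝓕 n).Finite ∧ 𝓕 n ⊆ range (O n)) →
      ∃ g, ∀ n, g ∉ ⋃₀ 𝓕 n := fun 𝓕 h => by
    choose! μ hμ using fun n W (hW : W ∈ 𝓕 n) => (h n).2 hW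
    choose f hf using fun n => ((h n).1.image (μ n)).bddAbove
    let c : ℕ → ℕ := fun n => ∑ i ∈ Finset.range (n + 1), f i + n
    have c1 : StrictMono c := Monotone.add_strictMono (monotone_nat_of_le_succ fun n =>
      Finset.sum_le_sum_of_subset (Finset.range_subset_range.2 (Nat.le_succ _))) strictMono_id
    obtain ⟨_, b1, _, b2, b3⟩ := s4 _ (infinite_range_of_injective c1.injective)
    obtain ⟨x, rfl⟩ := z4 _ b1
    obtain ⟨y, rfl⟩ := z4 _ b2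
    refine ⟨⟨fun m => max (Ψ x m) (Ψ y m), {Ψ x, Ψ y}, by simp, by simp [insert_subset_iff],
      .of_forall fun m => by simp⟩, fun n ⟨W, w1, w2⟩ => ?_⟩
    rw [← hμ n W w1] at w2
    refine (w2 ((Finset.range (μ n W)).filter (· ∈ e x)) (Finset.mem_powerset.2
      (Finset.filter_subset _ _)) ((Finset.range (μ n W)).filter (· ∈ e y)) (Finset.mem_powerset.2
        (Finset.filter_subset _ _)) (by simp +contextual [Ψ]) (by simp +contextual [Ψ])).not_ge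
          (le_trans (Finset.card_le_card (t := (Finset.range n).image c) fun i hi => ?_)
            (Finset.card_image_le.trans (Finset.card_range n).le))
    obtain ⟨b4, b5⟩ := Finset.mem_filter.1 hi
    simp only [Finset.mem_filter, b4, true_and] at b5
    obtain ⟨k, rfl⟩ := (b3 ▸ (z3 x y i).1 b5 : i ∈ range c)
    refine Finset.mem_image.2 ⟨k, Finset.mem_range.2 (c1.lt_iff_lt.1 (((Finset.mem_range.1
      b4).trans_le (hf n ⟨W, w1, rfl⟩)).trans_le ?_)), rfl⟩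
    exact (Finset.single_le_sum (fun _ _ => Nat.zero_le _) (Finset.self_mem_range_succ n)).trans
      (Nat.le_add_right _ _)
  refine ⟨X, Ψ, fun 𝓤 h => ?_, continuous_pi fun m => ?_, fun h => ?_, fun h => ?_⟩
  · obtain ⟨_, b1, -⟩ := s4 _ infinite_univ
    obtain ⟨x0, -⟩ := z4 _ b1
    have d1 : ∀ n, ∃ V : ℕ → Set X, (∀ i, V i ∈ 𝓤 n) ∧ ∀ y, ∃ i, y ∈ V i := fun n => by
      obtain ⟨T, t1, t2, t3⟩ := TopologicalSpace.isOpen_sUnion_countable (𝓤 n) (h n).1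
      rw [(h n).2.1] at t3
      obtain ⟨U, t4, -⟩ := (t3 ▸ mem_univ _ : x0 ∈ ⋃₀ T)
      obtain ⟨V, rfl⟩ := t1.exists_eq_range ⟨U, t4⟩
      exact ⟨V, fun i => t2 ⟨i, rfl⟩, fun y =>
        let ⟨_, ⟨i, rfl⟩, e⟩ := (t3 ▸ mem_univ y : y ∈ ⋃₀ range V); ⟨i, e⟩⟩
    choose V v1 v2 using d1
    have v3 : ∀ n k, V n '' Iic k ⊆ 𝓤 n := fun n k => by
      rintro _ ⟨i, -, rfl⟩
      exact v1 n i
    choose P p1 p2 using fun n k => e5 (⋃₀ (V n '' Iic k))
      (isOpen_sUnion fun U hU => (h n).1 U (v3 n k hU))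
    obtain ⟨k, hk⟩ := s1 (fun n k => {z | P n k {i | z i = 0}}) (fun n k => opn (p1 n k))
      fun n z hz => by
        obtain ⟨x, rfl⟩ := z4 z hz
        obtain ⟨i, hi⟩ := v2 n x
        exact (eventually_ge_atTop i).mono fun k hk => by
          rw [mem_setOf_eq, show {i | ζ x i = 0} = e x from z2 x, ← p2]
          exact ⟨_, ⟨i, hk, rfl⟩, hi⟩
    refine ⟨fun n => V n '' Iic (k n), fun n => ⟨(finite_Iic _).image _, v3 n _⟩, fun n c =>
      (h n).2.2 ⟨_, v3 n _, (finite_Iic _).image _, c⟩, fun F => ((eventually_all_finset F).2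
        fun x _ => hk _ (z1 x)).exists.imp fun n hn x hx => (p2 _ _ x).2 ?_⟩
    exact z2 x ▸ hn x hx
  · refine (IsLocallyConstant.iff_eventually_eq _).2 (fun x => ?_) |>.continuous
    have c1 : ∀ i ∈ Iio (d.symm m).1, ∀ᶠ y in nhds x, (i ∈ e y ↔ i ∈ e x) := fun i _ => by
      by_cases c : i ∈ e x
      · exact mem_of_superset ((e4 i).isOpen.mem_nhds c) fun y hy => iff_of_true hy c
      · exact mem_of_superset ((e4 i).compl.isOpen.mem_nhds c) fun y hy => iff_of_false hy c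
    exact ((eventually_all_finite (finite_Iio _)).2 c1).mono fun y hy => if_congr
      (forall₂_congr fun i hi => by rw [hy i hi]) rfl rfl
  · obtain ⟨𝓕, b1, -, b2⟩ := h (fun n => range (O n)) fun n => ⟨(o1 n).1, (o1 n).2,
      fun ⟨𝓖, c1, c2, c3⟩ => by
        obtain ⟨g, hg⟩ := o2 (fun k => if k = n then 𝓖 else ∅) fun k => by
          by_cases c : k = n
          · rw [if_pos c, c]; exact ⟨c2, c1⟩
          · rw [if_neg c]; exact ⟨finite_empty, empty_subset _⟩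
        exact hg n (by rw [if_pos rfl, c3]; trivial)⟩
    obtain ⟨g, hg⟩ := o2 𝓕 b1
    obtain ⟨n, hn⟩ := b2 {g}
    exact hg n (hn (by simp))
  · obtain ⟨𝓕, b1, b2⟩ := h (fun n => range (O n)) o1
    obtain ⟨g, hg⟩ := o2 𝓕 b1
    exact (b2 g).elim hg

end Pool.Agent.Results.MP_10444e_gt.MaxClosure
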